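import Mathlib

set_option autoImplicit false

/-! Injective hulls of simple modules and the prime property of indecomposable injective modules
over von Neumann regular rings. Left modules over a ring `A` throughout. -/

universe u

namespace Pool.Agent.H76.Zg

open CategoryTheory

variable {A : Type u} [Ring A]

theorem exists_injective (V : Type u) [AddCommGroup V] [Module A V] :
    ∃ (Q : Type u) (_ : AddCommGroup Q) (_ : Module A Q) (j : V →ₗ[A] Q),
      Module.Injective A Q ∧ Function.Injective j := by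
  let X : ModuleCat.{u} A := ModuleCat.of A V
  have : EnoughInjectives (ModuleCat.{u} A) := inferInstance
  obtain ⟨I⟩ := EnoughInjectives.presentation X
  refine ⟨I.J, inferInstance, inferInstance, I.f.hom, ?_, ?_⟩
  · have : CategoryTheory.Injective (ModuleCat.of A I.J) := I.injective
    exact Module.injective_module_of_injective_object A I.J
  · exact (ModuleCat.mono_iff_injective I.f).1 I.mono

/-- `E` is an essential extension of the submodule `V₀` (one-generator form) -/
def Ess {Q : Type u} [AddCommGroup Q] [Module A Q] (V₀ E : Submodule A Q) : Prop :=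
  ∀ x ∈ E, x ≠ 0 → ∃ a : A, a • x ∈ V₀ ∧ a • x ≠ 0

theorem exists_hull (V : Type u) [AddCommGroup V] [Module A V] :
    ∃ (E : Type u) (_ : AddCommGroup E) (_ : Module A E) (j : V →ₗ[A] E),
      Module.Injective A E ∧ Function.Injective j ∧
      ∀ x : E, x ≠ 0 → ∃ (a : A) (v : V), a • x = j v ∧ a • x ≠ 0 := by
  obtain ⟨Q, i1, i2, j, hQ, hj⟩ := exists_injective (A := A) V
  set V₀ : Submodule A Q := LinearMap.range j with hV₀
  -- a maximal essential extension inside Q
  obtain ⟨E, hVE, hE⟩ := zorn_le_nonempty₀ {E : Submodule A Q | V₀ ≤ E ∧ Ess V₀ E}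
    (by
      intro c hc hchain E₀ hE₀
      refine ⟨sSup c, ⟨?_, ?_⟩, fun z hz => le_sSup hz⟩
      · exact (hc hE₀).1.trans (le_sSup hE₀)
      · intro x hx hx0
        rw [Submodule.mem_sSup_of_directed ⟨E₀, hE₀⟩ hchain.directedOn] at hx
        obtain ⟨E', hE', hx'⟩ := hx
        exact (hc hE').2 x hx' hx0)
    V₀ ⟨le_rfl, fun x hx hx0 => ⟨1, by rwa [one_smul], by rwa [one_smul]⟩⟩
  have hEess := hE.prop.2
  -- a maximal complement
  obtain ⟨C, -, hC⟩ := zorn_le_nonempty₀ {C : Submodule A Q | ∀ x ∈ C, x ∈ E → x = 0}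
    (by
      intro c hc hchain E₀ hE₀
      refine ⟨sSup c, ?_, fun z hz => le_sSup hz⟩
      intro x hx hxE
      rw [Submodule.mem_sSup_of_directed ⟨E₀, hE₀⟩ hchain.directedOn] at hx
      obtain ⟨E', hE', hx'⟩ := hx
      exact hc hE' x hx' hxE)
    ⊥ (by
      intro x hx _
      simpa using hx)
  have hCE := hC.prop
  -- the map `E → Q / C`
  let f : E →ₗ[A] (Q ⧸ C) := C.mkQ ∘ₗ E.subtype
  have hf : Function.Injective f := by
    rw [injective_iff_map_eq_zero]
    rintro ⟨x, hx⟩ h0
    have h1 : x ∈ C := by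
      have : C.mkQ x = 0 := h0
      rwa [Submodule.mkQ_apply, Submodule.Quotient.mk_eq_zero] at this
    ext
    exact hCE x h1 hx
  obtain ⟨h, hh⟩ := hQ.out f hf E.subtype
  have hh' : ∀ x ∈ E, h (C.mkQ x) = x := fun x hx => hh ⟨x, hx⟩
  -- injectivity of h
  have hinj : ∀ q : Q, h (C.mkQ q) = 0 → q ∈ C := by
    have hK : LinearMap.ker (h ∘ₗ C.mkQ) ∈ {C : Submodule A Q | ∀ x ∈ C, x ∈ E → x = 0} := by
      intro x hx hxE
      rw [LinearMap.mem_ker, LinearMap.comp_apply, hh' x hxE] at hx
      exact hx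
    have hCK : C ≤ LinearMap.ker (h ∘ₗ C.mkQ) := by
      intro x hx
      rw [LinearMap.mem_ker, LinearMap.comp_apply]
      have : C.mkQ x = 0 := by rwa [Submodule.mkQ_apply, Submodule.Quotient.mk_eq_zero]
      rw [this, map_zero]
    intro q hq
    exact hC.le_of_ge hK hCK (LinearMap.mem_ker.2 hq)
  -- image of h is essential over V₀
  have hE' : LinearMap.range (h ∘ₗ C.mkQ) ∈ {E : Submodule A Q | V₀ ≤ E ∧ Ess V₀ E} := by
    refine ⟨?_, ?_⟩
    · intro x hx
      exact ⟨x, hh' x (hE.prop.1 hx)⟩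
    · rintro y ⟨q, rfl⟩ hy
      have hqC : q ∉ C := by
        intro hq
        apply hy
        rw [LinearMap.comp_apply]
        have : C.mkQ q = 0 := by rwa [Submodule.mkQ_apply, Submodule.Quotient.mk_eq_zero]
        rw [this, map_zero]
      -- C + A q meets E
      have hex : ∃ x ∈ C ⊔ Submodule.span A {q}, x ∈ E ∧ x ≠ 0 := by
        by_contra hcon
        push Not at hcon
        have h1 : C ⊔ Submodule.span A {q} ∈ {C : Submodule A Q | ∀ x ∈ C, x ∈ E → x = 0} :=
          fun x hx hxE => hcon x hx hxE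
        exact hqC (hC.le_of_ge h1 le_sup_left
          (Submodule.mem_sup_right (Submodule.mem_span_singleton_self q)))
      obtain ⟨x, hx, hxE, hx0⟩ := hex
      obtain ⟨c, hc, z, hz, hcz⟩ := Submodule.mem_sup.1 hx
      obtain ⟨a, rfl⟩ := Submodule.mem_span_singleton.1 hz
      obtain ⟨b, hb1, hb2⟩ := hEess x hxE hx0
      have h2 : (h ∘ₗ C.mkQ) (a • q) = x := by
        have h3 : (h ∘ₗ C.mkQ) (a • q) = (h ∘ₗ C.mkQ) x := by
          rw [← hcz, map_add]
          have : (h ∘ₗ C.mkQ) c = 0 := by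
            rw [LinearMap.comp_apply]
            have : C.mkQ c = 0 := by rwa [Submodule.mkQ_apply, Submodule.Quotient.mk_eq_zero]
            rw [this, map_zero]
          rw [this, zero_add]
        rw [h3]
        exact hh' x hxE
      refine ⟨b * a, ?_, ?_⟩
      · rw [mul_smul, ← map_smul, h2]; exact hb1
      · rw [mul_smul, ← map_smul, h2]; exact hb2
  have hEeq : LinearMap.range (h ∘ₗ C.mkQ) ≤ E :=
    hE.le_of_ge hE' (fun x hx => ⟨x, hh' x hx⟩)
  let r : Q →ₗ[A] E := (h ∘ₗ C.mkQ).codRestrict E (fun q => hEeq ⟨q, rfl⟩)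
  have hr : ∀ x : E, r (x : Q) = x := fun x => Subtype.ext (hh' x x.2)
  refine ⟨E, inferInstance, inferInstance, j.codRestrict E (fun v => hE.prop.1 ⟨v, rfl⟩), ?_, ?_,
    ?_⟩
  · constructor
    intro X Y _ _ _ _ f hf g
    obtain ⟨k, hk⟩ := hQ.out f hf (E.subtype ∘ₗ g)
    refine ⟨r ∘ₗ k, fun x => ?_⟩
    rw [LinearMap.comp_apply, hk]
    exact hr (g x)
  · intro x y hxy
    exact hj (congrArg Subtype.val hxy)
  · rintro ⟨x, hx⟩ hx0
    obtain ⟨a, ⟨v, hv⟩, ha2⟩ := hEess x hx (fun h => hx0 (Subtype.ext h))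
    refine ⟨a, v, ?_, ?_⟩
    · apply Subtype.ext
      exact hv.symm
    · intro h0
      exact ha2 (congrArg Subtype.val h0)

/-- Elements of `A e N` are fixed by an element annihilating every submodule killed by `e`. -/

lemma fixed_of_mem (hA : ∀ a : A, ∃ x : A, a * x * a = a) {N : Type u} [AddCommGroup N]
    [Module A N] (e : A) (he : e * e = e) (B : Submodule A N) (hB : ∀ b ∈ B, e • b = 0) (x : N)
    (hx : x ∈ Submodule.span A {y : N | ∃ n, y = e • n}) :
    ∃ i : A, (∀ b ∈ B, i • b = 0) ∧ i • x = x := by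
  induction hx using Submodule.span_induction with
  | mem x h =>
    obtain ⟨n, rfl⟩ := h
    exact ⟨e, hB, by rw [← mul_smul, he]⟩
  | zero => exact ⟨0, fun b _ => by rw [zero_smul], by rw [smul_zero]⟩
  | add x y _ _ ihx ihy =>
    obtain ⟨i, hi1, hi2⟩ := ihx
    obtain ⟨i', hi1', hi2'⟩ := ihy
    obtain ⟨w, hw⟩ := hA i
    set p := i * w with hp
    have hpi : p * i = i := hw
    set z := (1 - p) * i' with hz
    obtain ⟨a, ha⟩ := hA z
    set q := z * a with hq
    have hqz : q * z = z := ha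
    have hqz' : q * i' - q * p * i' = z := by
      rw [← hqz, hz]; noncomm_ring
    have hpb : ∀ b ∈ B, p • b = 0 := by
      intro b hb
      rw [hp, mul_smul]; exact hi1 _ (B.smul_mem w hb)
    have hqb : ∀ b ∈ B, q • b = 0 := by
      intro b hb
      have hab := B.smul_mem a hb
      have h1 : i' • (a • b) = 0 := hi1' _ hab
      rw [hq, mul_smul, hz, mul_smul, h1, smul_zero]
    refine ⟨p + q - q * p, fun b hb => ?_, ?_⟩
    · rw [sub_smul, add_smul, hpb b hb, hqb b hb, mul_smul, hpb b hb]; simp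
    · have e1 : (p + q - q * p) * i = i := by
        calc (p + q - q * p) * i = p * i + q * i - q * (p * i) := by noncomm_ring
          _ = i := by rw [hpi]; abel
      have e2 : (p + q - q * p) * i' = i' := by
        calc (p + q - q * p) * i' = p * i' + (q * i' - q * p * i') := by noncomm_ring
          _ = p * i' + (1 - p) * i' := by rw [hqz']
          _ = i' := by noncomm_ring
      rw [smul_add]
      nth_rewrite 1 [← hi2]
      nth_rewrite 1 [← hi2']
      rw [← mul_smul, ← mul_smul, e1, e2, hi2, hi2']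
  | smul c x _ ih =>
    obtain ⟨i, hi1, hi2⟩ := ih
    obtain ⟨w, hw⟩ := hA (c * i)
    refine ⟨c * i * w, fun b hb => ?_, ?_⟩
    · rw [mul_smul, mul_smul, hi1 _ (B.smul_mem w hb), smul_zero]
    · nth_rewrite 1 [← hi2]
      rw [← mul_smul c i x, ← mul_smul, hw, mul_smul, hi2]

/-- Prime property: if `e N ≠ 0` and `g N ≠ 0` then `e a g N ≠ 0` for some `a`. -/
lemma prime_property (hA : ∀ a : A, ∃ x : A, a * x * a = a) {N : Type u} [AddCommGroup N]
    [Module A N] (hN : Module.Injective A N)
    (hind : ∀ N₁ N₂ : Submodule A N, IsCompl N₁ N₂ → N₁ = ⊥ ∨ N₂ = ⊥)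
    (e g : A) (he : e * e = e) (hen : ∃ n : N, e • n ≠ 0) (hgn : ∃ n : N, g • n ≠ 0) :
    ∃ a : A, ∃ n : N, (e * a * g) • n ≠ 0 := by
  by_contra hcon
  push Not at hcon
  obtain ⟨n1, hn1⟩ := hen
  obtain ⟨n2, hn2⟩ := hgn
  let B : Submodule A N :=
    { carrier := {x | ∀ a : A, (e * a) • x = 0}
      zero_mem' := fun a => smul_zero _
      add_mem' := by
        intro x y hx hy a
        rw [smul_add, hx a, hy a, add_zero]
      smul_mem' := by
        intro c x hx a
        rw [← mul_smul, mul_assoc]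
        exact hx (a * c) }
  have hBe : ∀ b ∈ B, e • b = 0 := by
    intro b hb
    have := hb 1
    rwa [mul_one] at this
  set B' : Submodule A N := Submodule.span A {y : N | ∃ n, y = e • n} with hB'
  have hdisj : ∀ x ∈ B', x ∈ B → x = 0 := by
    intro x hx hxB
    obtain ⟨i, hi1, hi2⟩ := fixed_of_mem hA e he B hBe x hx
    rw [← hi2]; exact hi1 x hxB
  -- the map B × B' → N
  let f : (B × B') →ₗ[A] N := LinearMap.coprod B.subtype B'.subtype
  have hf : Function.Injective f := by
    rw [injective_iff_map_eq_zero]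
    rintro ⟨⟨b, hb⟩, ⟨c, hc⟩⟩ h0
    have h1 : b + c = 0 := by
      have : f (⟨b, hb⟩, ⟨c, hc⟩) = b + c := by simp [f]
      rw [← this]; exact h0
    have h2 : c ∈ B := by
      have : c = -b := by rw [eq_neg_iff_add_eq_zero, add_comm]; exact h1
      rw [this]; exact B.neg_mem hb
    have h3 := hdisj c hc h2
    have h4 : b = 0 := by rw [h3, add_zero] at h1; exact h1
    ext <;> simp [h3, h4]
  obtain ⟨h, hh⟩ := hN.out f hf (B.subtype ∘ₗ LinearMap.fst A B B')
  have hhB : ∀ b ∈ B, h b = b := by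
    intro b hb
    have := hh (⟨b, hb⟩, 0)
    simpa [f] using this
  have hhB' : ∀ c ∈ B', h c = 0 := by
    intro c hc
    have := hh (0, ⟨c, hc⟩)
    simpa [f] using this
  have himg : ∀ x, h x ∈ B := by
    intro x a
    rw [← map_smul, mul_smul]
    exact hhB' _ (Submodule.subset_span ⟨_, rfl⟩)
  have hcompl : IsCompl B (LinearMap.ker h) := by
    constructor
    · rw [Submodule.disjoint_def]
      intro x hx hk
      rw [LinearMap.mem_ker, hhB x hx] at hk
      exact hk
    · rw [codisjoint_iff, eq_top_iff]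
      intro x _
      rw [Submodule.mem_sup]
      refine ⟨h x, himg x, x - h x, ?_, by abel⟩
      rw [LinearMap.mem_ker, map_sub, hhB _ (himg x), sub_self]
  rcases hind _ _ hcompl with h1 | h1
  · apply hn2
    have : g • n2 ∈ B := by
      intro a
      rw [← mul_smul]
      exact hcon a n2
    rw [h1] at this
    simpa using this
  · have htop : B = ⊤ := by
      have := hcompl.sup_eq_top
      rwa [h1, sup_bot_eq] at this
    apply hn1
    exact hBe n1 (by rw [htop]; trivial)

end Pool.Agent.H76.Zg
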