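import Pool.Agent.H76.Zg.Tree
import Pool.Agent.H76.Zg.Hull

set_option autoImplicit false

/-! Two non-isomorphic indecomposable injectives with prescribed annihilators. -/

universe u

namespace Pool.Agent.H76.Zg

open Cardinal

variable {A : Type u} [Ring A]

section hull

variable {V : Type u} [AddCommGroup V] [Module A V] {E : Type u} [AddCommGroup E] [Module A E]

lemma simple_gen [IsSimpleModule A V] {v : V} (hv : v ≠ 0) (w : V) : ∃ c : A, c • v = w := by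
  obtain ⟨_, h⟩ := isSimpleModule_iff_toSpanSingleton_surjective.1
    (inferInstance : IsSimpleModule A V)
  obtain ⟨c, hc⟩ := h v hv w
  exact ⟨c, hc⟩

lemma hull_indec [IsSimpleModule A V] (j : V →ₗ[A] E)
    (hess : ∀ x : E, x ≠ 0 → ∃ (a : A) (v : V), a • x = j v ∧ a • x ≠ 0)
    (N₁ N₂ : Submodule A E) (h : IsCompl N₁ N₂) : N₁ = ⊥ ∨ N₂ = ⊥ := by
  by_contra hcon
  push Not at hcon
  obtain ⟨h1, h2⟩ := hcon
  obtain ⟨x, hx, hx0⟩ := (Submodule.ne_bot_iff _).1 h1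
  obtain ⟨y, hy, hy0⟩ := (Submodule.ne_bot_iff _).1 h2
  obtain ⟨a, v, hav, ha0⟩ := hess x hx0
  obtain ⟨b, w, hbw, hb0⟩ := hess y hy0
  have hv0 : v ≠ 0 := by
    intro h0; apply ha0; rw [hav, h0, map_zero]
  obtain ⟨c, hc⟩ := simple_gen (A := A) hv0 w
  have h3 : b • y ∈ N₁ := by
    rw [hbw, ← hc, map_smul, ← hav]
    exact N₁.smul_mem _ (N₁.smul_mem _ hx)
  have h4 : b • y ∈ N₂ := N₂.smul_mem _ hy
  exact hb0 ((Submodule.disjoint_def.1 h.disjoint) _ h3 h4)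

lemma hull_killed (hA : ∀ a : A, ∃ x : A, a * x * a = a) {M : Type u} [AddCommGroup M]
    [Module A M] (j : V →ₗ[A] E)
    (hess : ∀ x : E, x ≠ 0 → ∃ (a : A) (v : V), a • x = j v ∧ a • x ≠ 0)
    (hV : ∀ a ∈ ann A M, ∀ v : V, a • v = 0) : ∀ a ∈ ann A M, ∀ x : E, a • x = 0 := by
  intro a ha x
  by_contra hx
  obtain ⟨c, v, hcv, hc0⟩ := hess (a • x) hx
  obtain ⟨w, hw⟩ := hA (c * a)
  have h1 : c * a * w ∈ ann A M := by
    intro m
    rw [mul_smul, mul_smul, ha, smul_zero]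
  have h2 : (c * a * w) • (c • a • x) = c • a • x := by
    rw [← mul_smul c a x, ← mul_smul, hw]
  rw [hcv, ← map_smul, hV _ h1 v, map_zero] at h2
  exact hc0 (by rw [hcv]; exact h2.symm)

lemma hull_iso {V' : Type u} [AddCommGroup V'] [Module A V'] {E' : Type u} [AddCommGroup E']
    [Module A E'] [IsSimpleModule A V] [IsSimpleModule A V'] (j : V →ₗ[A] E) (j' : V' →ₗ[A] E')
    (hj : Function.Injective j) (hj' : Function.Injective j')
    (hess' : ∀ x : E', x ≠ 0 → ∃ (a : A) (v : V'), a • x = j' v ∧ a • x ≠ 0)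
    (φ : E ≃ₗ[A] E') : Nonempty (V ≃ₗ[A] V') := by
  have : Nontrivial V := IsSimpleModule.nontrivial A V
  obtain ⟨v0, hv0⟩ := exists_ne (0 : V)
  have hx : φ (j v0) ≠ 0 := by
    intro h
    apply hv0
    apply hj
    rw [map_zero]
    exact (LinearEquiv.map_eq_zero_iff φ).1 h
  obtain ⟨a, w, haw, ha0⟩ := hess' _ hx
  have hav : a • v0 ≠ 0 := by
    intro h
    apply ha0
    rw [← map_smul, ← map_smul, h, map_zero, map_zero]
  have hrange : ∀ v : V, (φ.toLinearMap ∘ₗ j) v ∈ LinearMap.range j' := by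
    intro v
    obtain ⟨c, hc⟩ := simple_gen (A := A) hav v
    refine ⟨c • w, ?_⟩
    rw [map_smul, ← haw, ← hc]
    simp
  let ψ : V →ₗ[A] V' := (LinearEquiv.ofInjective j' hj').symm.toLinearMap ∘ₗ
    (φ.toLinearMap ∘ₗ j).codRestrict (LinearMap.range j') hrange
  have hψ : ψ ≠ 0 := by
    intro h0
    have h1 : ψ v0 = 0 := by rw [h0]; rfl
    have h2 : (φ.toLinearMap ∘ₗ j).codRestrict (LinearMap.range j') hrange v0 = 0 := by
      have h3 : (LinearEquiv.ofInjective j' hj').symm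
        ((φ.toLinearMap ∘ₗ j).codRestrict (LinearMap.range j') hrange v0) = 0 := h1
      exact (LinearEquiv.map_eq_zero_iff _).1 h3
    apply hx
    have h4 := congrArg Subtype.val h2
    exact h4
  exact ⟨LinearEquiv.ofBijective ψ (LinearMap.bijective_of_ne_zero hψ)⟩

end hull

/-- Two non-isomorphic indecomposable injectives killed by `ann M` and not killed by `g`. -/
theorem two_hulls (hA : ∀ a : A, ∃ x : A, a * x * a = a) {M : Type u} [AddCommGroup M]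
    [Module A M] (hM : ∀ S : Submodule A M, ¬ IsSimpleModule A S) (m : M) (g : A) (hg : g * g = g)
    (hgm : g • m ≠ 0)
    (hH : ∀ P : Ideal A, P.IsMaximal → ∃ T : Set (A ⧸ P), #T < 𝔠 ∧
      Submodule.span (Module.End A (A ⧸ P)) T = ⊤) :
    ∃ (E₁ E₂ : Type u) (_ : AddCommGroup E₁) (_ : AddCommGroup E₂) (_ : Module A E₁)
      (_ : Module A E₂), Module.Injective A E₁ ∧ Module.Injective A E₂ ∧
      (∀ N₁ N₂ : Submodule A E₁, IsCompl N₁ N₂ → N₁ = ⊥ ∨ N₂ = ⊥) ∧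
      (∀ N₁ N₂ : Submodule A E₂, IsCompl N₁ N₂ → N₁ = ⊥ ∨ N₂ = ⊥) ∧
      (∀ a ∈ ann A M, ∀ x : E₁, a • x = 0) ∧ (∀ a ∈ ann A M, ∀ x : E₂, a • x = 0) ∧
      (∃ x : E₁, g • x ≠ 0) ∧ (∃ x : E₂, g • x ≠ 0) ∧ ¬ Nonempty (E₁ ≃ₗ[A] E₂) := by
  obtain ⟨P1, P2, hP1, hP2, hann1, hann2, hg1, hg2, hniso⟩ := two_simples hA hM m g hg hgm hH
  have : IsSimpleModule A (A ⧸ P1) := isSimpleModule_iff_isCoatom.2 (Ideal.isMaximal_def.1 hP1)
  have : IsSimpleModule A (A ⧸ P2) := isSimpleModule_iff_isCoatom.2 (Ideal.isMaximal_def.1 hP2)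
  obtain ⟨E₁, i1, i2, j1, hinj1, hj1, hess1⟩ := exists_hull (A := A) (A ⧸ P1)
  obtain ⟨E₂, i3, i4, j2, hinj2, hj2, hess2⟩ := exists_hull (A := A) (A ⧸ P2)
  have hkill : ∀ P : Ideal A, (∀ a ∈ ann A M, a ∈ P) → ∀ a ∈ ann A M, ∀ v : A ⧸ P, a • v = 0 := by
    intro P hP a ha v
    obtain ⟨b, rfl⟩ := Submodule.Quotient.mk_surjective P v
    have h1 : a • (Submodule.Quotient.mk b : A ⧸ P) = Submodule.Quotient.mk (a • b) := rfl
    rw [h1, Submodule.Quotient.mk_eq_zero]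
    apply hP
    intro x
    rw [smul_eq_mul, mul_smul]
    exact ha _
  have hgne : ∀ P : Ideal A, P.IsMaximal → 1 - g ∈ P →
      g • (Submodule.Quotient.mk 1 : A ⧸ P) ≠ 0 := by
    intro P hP hgP h0
    have h1 : g • (Submodule.Quotient.mk 1 : A ⧸ P) = Submodule.Quotient.mk (g • 1) := rfl
    rw [h1, Submodule.Quotient.mk_eq_zero, smul_eq_mul, mul_one] at h0
    apply hP.ne_top
    rw [Ideal.eq_top_iff_one]
    have : (1 : A) = (1 - g) + g := by abel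
    rw [this]
    exact P.add_mem hgP h0
  refine ⟨E₁, E₂, i1, i3, i2, i4, hinj1, hinj2, hull_indec j1 hess1, hull_indec j2 hess2,
    hull_killed hA j1 hess1 (hkill P1 hann1), hull_killed hA j2 hess2 (hkill P2 hann2),
    ⟨j1 (Submodule.Quotient.mk 1), ?_⟩, ⟨j2 (Submodule.Quotient.mk 1), ?_⟩, ?_⟩
  · rw [← map_smul]
    intro h
    exact hgne P1 hP1 hg1 (hj1 (by rw [h, map_zero]))
  · rw [← map_smul]
    intro h
    exact hgne P2 hP2 hg2 (hj2 (by rw [h, map_zero]))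
  · rintro ⟨φ⟩
    exact hniso (hull_iso j1 j2 hj1 hj2 hess2 φ)

end Pool.Agent.H76.Zg
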