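import Mathlib

set_option autoImplicit false

/-! Von Neumann regular rings without socle: binary trees of idempotents and many independent
vectors in simple modules. Left modules over a ring `A` throughout. -/

universe u

namespace Pool.Agent.H76.Zg

open Cardinal

variable {A : Type u} [Ring A]

/-- splitting an idempotent `g` with `g m ≠ 0`, where `m` lies in a module without simple
submodules -/
lemma split (hA : ∀ a : A, ∃ x : A, a * x * a = a) {M : Type u} [AddCommGroup M] [Module A M]
    (hM : ∀ S : Submodule A M, ¬ IsSimpleModule A S) (m : M) (g : A) (hg : g * g = g)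
    (hgm : g • m ≠ 0) :
    ∃ g1 g2 : A, g1 * g1 = g1 ∧ g2 * g2 = g2 ∧ g1 + g2 = g ∧ g1 * g2 = 0 ∧ g2 * g1 = 0 ∧
      g1 • m ≠ 0 ∧ g2 • m ≠ 0 := by
  have hns := hM (Submodule.span A {g • m})
  -- a proper nonzero submodule
  have hex : ∃ y : M, y ∈ Submodule.span A {g • m} ∧ y ≠ 0 ∧ g • m ∉ Submodule.span A {y} := by
    by_contra hcon
    push Not at hcon
    apply hns
    have hnt : Nontrivial (Submodule.span A {g • m}) :=
      ⟨⟨⟨g • m, Submodule.mem_span_singleton_self _⟩, 0, by simpa using hgm⟩⟩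
    refine isSimpleModule_iff_toSpanSingleton_surjective.2 ⟨hnt, ?_⟩
    rintro ⟨y, hy⟩ hy0 ⟨z, hz⟩
    have hy0' : y ≠ 0 := fun h => hy0 (by simp [h])
    have h1 := hcon y hy hy0'
    obtain ⟨a, ha⟩ := Submodule.mem_span_singleton.1 h1
    obtain ⟨c, hc⟩ := Submodule.mem_span_singleton.1 hz
    refine ⟨c * a, ?_⟩
    apply Subtype.ext
    simp only [LinearMap.toSpanSingleton_apply, Submodule.coe_smul]
    rw [mul_smul, ha, hc]
  obtain ⟨y, hy, hy0, hgy⟩ := hex
  obtain ⟨a, ha⟩ := Submodule.mem_span_singleton.1 hy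
  set b : A := a * g with hb
  have hbm : b • m = y := by rw [hb, mul_smul, ha]
  obtain ⟨x, hx⟩ := hA b
  -- h = x b is idempotent, A h = A b, h g = h
  set h : A := x * b with hh
  have hbh : b * h = b := by rw [hh, ← mul_assoc, hx]
  have hhh : h * h = h := by
    calc h * h = x * (b * x * b) := by rw [hh]; noncomm_ring
      _ = h := by rw [hx]
  have hhg : h * g = h := by
    rw [hh, hb]
    calc x * (a * g) * g = x * (a * (g * g)) := by noncomm_ring
      _ = x * (a * g) := by rw [hg]
  set g1 : A := g * h with hg1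
  have g1g1 : g1 * g1 = g1 := by
    calc g1 * g1 = g * (h * g) * h := by rw [hg1]; noncomm_ring
      _ = g * (h * h) := by rw [hhg]; noncomm_ring
      _ = g1 := by rw [hhh]
  have g1g : g1 * g = g1 := by
    calc g1 * g = g * (h * g) := by rw [hg1]; noncomm_ring
      _ = g1 := by rw [hhg]
  have gg1 : g * g1 = g1 := by
    calc g * g1 = (g * g) * h := by rw [hg1]; noncomm_ring
      _ = g1 := by rw [hg]
  have hhg1 : h = h * g1 := by
    calc h = h * h := hhh.symm
      _ = (h * g) * h := by rw [hhg]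
      _ = h * g1 := by rw [hg1]; noncomm_ring
  refine ⟨g1, g - g1, g1g1, ?_, by abel, ?_, ?_, ?_, ?_⟩
  · calc (g - g1) * (g - g1) = g * g - g * g1 - g1 * g + g1 * g1 := by noncomm_ring
      _ = g - g1 := by rw [hg, gg1, g1g, g1g1]; abel
  · rw [mul_sub, g1g, g1g1, sub_self]
  · rw [sub_mul, gg1, g1g1, sub_self]
  · intro h0
    apply hy0
    rw [← hbm, ← hbh, hhg1, ← mul_assoc, mul_smul, h0, smul_zero]
  · intro h0
    apply hgy
    rw [sub_smul, sub_eq_zero] at h0
    rw [h0, Submodule.mem_span_singleton]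
    refine ⟨g * x, ?_⟩
    rw [← hbm, ← mul_smul, hg1, hh]
    congr 1
    noncomm_ring

/-- the nodes of the tree -/
structure Node (A : Type u) [Ring A] (M : Type u) [AddCommGroup M] [Module A M] (m : M) where
  e : A
  idem : e * e = e
  ne : e • m ≠ 0

/-- a node together with its two children -/
lemma exists_children (hA : ∀ a : A, ∃ x : A, a * x * a = a) {M : Type u} [AddCommGroup M]
    [Module A M] (hM : ∀ S : Submodule A M, ¬ IsSimpleModule A S) (m : M) (g : Node A M m) :
    ∃ c : Bool → Node A M m, (c true).e + (c false).e = g.e ∧ (c true).e * (c false).e = 0 ∧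
      (c false).e * (c true).e = 0 := by
  obtain ⟨g1, g2, h1, h2, h3, h4, h5, h6, h7⟩ := split hA hM m g.e g.idem g.ne
  exact ⟨fun t => if t then ⟨g1, h1, h6⟩ else ⟨g2, h2, h7⟩, by simpa using h3, by simpa using h4,
    by simpa using h5⟩

/-- Binary tree along branches: for each branch `b : ℕ → Bool` a decreasing sequence of
idempotents, orthogonal once the branches have split. -/
lemma exists_tree (hA : ∀ a : A, ∃ x : A, a * x * a = a) {M : Type u} [AddCommGroup M]
    [Module A M] (hM : ∀ S : Submodule A M, ¬ IsSimpleModule A S) (m : M) (g : A) (hg : g * g = g)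
    (hgm : g • m ≠ 0) :
    ∃ e : (ℕ → Bool) → ℕ → A, (∀ b, e b 0 = g) ∧ (∀ b n, e b n * e b n = e b n) ∧
      (∀ b n, e b n • m ≠ 0) ∧ (∀ b n, e b n * e b (n + 1) = e b (n + 1)) ∧
      (∀ b n, e b (n + 1) * e b n = e b (n + 1)) ∧
      (∀ b b' n, (∃ k < n, b k ≠ b' k) → e b n * e b' n = 0) := by
  classical
  choose c hc1 hc2 hc3 using exists_children hA hM m
  let T : List Bool → Node A M m := fun l => l.rec ⟨g, hg, hgm⟩ (fun a _ N => c N a)
  let pre : (ℕ → Bool) → ℕ → List Bool := fun b n => n.rec [] (fun n l => b n :: l)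
  have hT : ∀ b n, T (pre b (n + 1)) = c (T (pre b n)) (b n) := fun b n => rfl
  have hchild : ∀ (N : Node A M m) (a : Bool), N.e * (c N a).e = (c N a).e ∧
      (c N a).e * N.e = (c N a).e := by
    intro N a
    rw [← hc1 N]
    cases a
    · refine ⟨?_, ?_⟩
      · rw [add_mul, hc2, zero_add, (c N false).idem]
      · rw [mul_add, hc3, zero_add, (c N false).idem]
    · refine ⟨?_, ?_⟩
      · rw [add_mul, hc3, add_zero, (c N true).idem]
      · rw [mul_add, hc2, add_zero, (c N true).idem]
  refine ⟨fun b n => (T (pre b n)).e, fun b => rfl, fun b n => (T (pre b n)).idem,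
    fun b n => (T (pre b n)).ne, fun b n => ?_, fun b n => ?_, ?_⟩
  · show (T (pre b n)).e * (T (pre b (n + 1))).e = (T (pre b (n + 1))).e
    rw [hT]; exact (hchild _ _).1
  · show (T (pre b (n + 1))).e * (T (pre b n)).e = (T (pre b (n + 1))).e
    rw [hT]; exact (hchild _ _).2
  · intro b b' n
    induction n with
    | zero => rintro ⟨k, hk, _⟩; omega
    | succ n ih =>
      rintro ⟨k, hk, hne⟩
      show (T (pre b (n + 1))).e * (T (pre b' (n + 1))).e = 0
      by_cases hcase : ∃ k < n, b k ≠ b' k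
      · have h0 := ih hcase
        have e1 : (T (pre b (n + 1))).e = (T (pre b (n + 1))).e * (T (pre b n)).e := by
          rw [hT]; exact ((hchild _ _).2).symm
        have e2 : (T (pre b' (n + 1))).e = (T (pre b' n)).e * (T (pre b' (n + 1))).e := by
          rw [hT]; exact ((hchild _ _).1).symm
        rw [e1, e2, mul_assoc, ← mul_assoc (T (pre b n)).e]
        have h0' : (T (pre b n)).e * (T (pre b' n)).e = 0 := h0
        rw [h0', zero_mul, mul_zero]
      · push Not at hcase
        have hkn : k = n := by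
          by_contra hne'
          exact hne (hcase k (by omega))
        subst hkn
        have hpre : ∀ j, j ≤ k → pre b j = pre b' j := by
          intro j
          induction j with
          | zero => intro _; rfl
          | succ j ihj =>
            intro hj
            show b j :: pre b j = b' j :: pre b' j
            rw [ihj (by omega), hcase j (by omega)]
        rw [hT, hT, hpre k le_rfl]
        cases hb : b k <;> cases hb' : b' k
        · exact absurd (hb.trans hb'.symm) hne
        · exact hc3 _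
        · exact hc2 _
        · exact absurd (hb.trans hb'.symm) hne

/-- the annihilator of a module as a left ideal -/
def ann (A : Type u) [Ring A] (M : Type u) [AddCommGroup M] [Module A M] : Set A :=
  {a | ∀ m : M, a • m = 0}

/-- branch ideals: a maximal left ideal containing the annihilator of `M` and all `1 - e_n` -/
lemma exists_maximal {M : Type u} [AddCommGroup M] [Module A M] (m : M)
    (e : ℕ → A) (hidem : ∀ n, e n * e n = e n) (hne : ∀ n, e n • m ≠ 0)
    (h1 : ∀ n, e n * e (n + 1) = e (n + 1)) :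
    ∃ P : Ideal A, P.IsMaximal ∧ (∀ a ∈ ann A M, a ∈ P) ∧ ∀ n, 1 - e n ∈ P := by
  have hle : ∀ n k, e n * e (n + k) = e (n + k) := by
    intro n k
    induction k with
    | zero => exact hidem n
    | succ k ih =>
      calc e n * e (n + (k + 1)) = e n * (e (n + k) * e (n + k + 1)) := by
            rw [h1 (n + k)]; rfl
        _ = (e n * e (n + k)) * e (n + k + 1) := by noncomm_ring
        _ = e (n + k) * e (n + k + 1) := by rw [ih]
        _ = e (n + (k + 1)) := h1 (n + k)
  -- the ideal `{a : a e_n ∈ ann M for some n}`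
  let J : Ideal A :=
    { carrier := {a | ∃ n, a * e n ∈ ann A M}
      zero_mem' := ⟨0, fun m => by simp⟩
      add_mem' := by
        rintro a b ⟨n, hn⟩ ⟨k, hk⟩
        refine ⟨n + k, fun m => ?_⟩
        have ha : a * e (n + k) = a * e n * e (n + k) := by rw [mul_assoc, hle]
        have hb : b * e (n + k) = b * e k * e (n + k) := by
          rw [mul_assoc, add_comm n k, hle]
        rw [add_mul, add_smul, ha, hb, mul_smul (a * e n), mul_smul (b * e k), hn, hk, add_zero]
      smul_mem' := by
        rintro c a ⟨n, hn⟩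
        refine ⟨n, fun m => ?_⟩
        rw [smul_eq_mul, mul_assoc, mul_smul, hn, smul_zero] }
  have hJ : J ≠ ⊤ := by
    intro h
    have : (1 : A) ∈ J := by rw [h]; trivial
    obtain ⟨n, hn⟩ := this
    rw [one_mul] at hn
    exact hne n (hn m)
  obtain ⟨P, hP, hJP⟩ := Ideal.exists_le_maximal J hJ
  refine ⟨P, hP, fun a ha => hJP ⟨0, fun m => ?_⟩, fun n => hJP ⟨n, fun m => ?_⟩⟩
  · rw [mul_smul]; exact ha _
  · rw [sub_mul, one_mul, hidem, sub_self, zero_smul]

/-- Independent vectors: if a simple module `V` contains for every branch a nonzero vector fixed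
by the idempotents of that branch then these vectors are independent over `End V`. -/
lemma independent {V : Type u} [AddCommGroup V] [Module A V] [IsSimpleModule A V]
    (e : (ℕ → Bool) → ℕ → A)
    (h2 : ∀ b b' n, (∃ k < n, b k ≠ b' k) → e b n * e b' n = 0)
    (v : (ℕ → Bool) → V) (hv0 : ∀ b, v b ≠ 0) (hv : ∀ b n, e b n • v b = v b) :
    LinearIndependent (Module.End A V) v := by
  classical
  rw [linearIndependent_iff']
  intro s φ hsum b hb
  -- choose a level
  have hex : ∀ b' : ℕ → Bool, ∃ n, b' ≠ b → ∃ k < n, b k ≠ b' k := by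
    intro b'
    by_cases h : b' = b
    · exact ⟨0, fun h' => absurd h h'⟩
    · obtain ⟨k, hk⟩ := Function.ne_iff.1 h
      exact ⟨k + 1, fun _ => ⟨k, by omega, fun h' => hk h'.symm⟩⟩
  choose lev hlev using hex
  set n := s.sup lev with hn
  have hzero : ∀ b' ∈ s, b' ≠ b → e b n • φ b' (v b') = 0 := by
    intro b' hb' hne
    obtain ⟨k, hk, hkne⟩ := hlev b' hne
    have hkn : k < n := lt_of_lt_of_le hk (Finset.le_sup hb')
    rw [← map_smul, ← hv b' n, ← mul_smul, h2 b b' n ⟨k, hkn, hkne⟩, zero_smul, map_zero]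
  have h3 : e b n • (∑ b' ∈ s, φ b' • v b') = e b n • φ b (v b) := by
    rw [Finset.smul_sum]
    apply Finset.sum_eq_single_of_mem b hb
    intro b' hb' hne
    exact hzero b' hb' hne
  rw [hsum, smul_zero, ← map_smul, hv b n] at h3
  -- φ b kills a nonzero vector
  by_contra hφ
  have hker : LinearMap.ker (φ b) = ⊥ ∨ LinearMap.ker (φ b) = ⊤ := eq_bot_or_eq_top _
  rcases hker with h | h
  · have : v b ∈ LinearMap.ker (φ b) := by rw [LinearMap.mem_ker]; exact h3.symm
    rw [h, Submodule.mem_bot] at this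
    exact hv0 b this
  · exact hφ (LinearMap.ker_eq_top.1 h)

/-- Two non-isomorphic simple modules. -/
theorem two_simples (hA : ∀ a : A, ∃ x : A, a * x * a = a) {M : Type u} [AddCommGroup M]
    [Module A M] (hM : ∀ S : Submodule A M, ¬ IsSimpleModule A S) (m : M) (g : A) (hg : g * g = g)
    (hgm : g • m ≠ 0)
    (hH : ∀ P : Ideal A, P.IsMaximal → ∃ T : Set (A ⧸ P), #T < 𝔠 ∧
      Submodule.span (Module.End A (A ⧸ P)) T = ⊤) :
    ∃ P1 P2 : Ideal A, P1.IsMaximal ∧ P2.IsMaximal ∧ (∀ a ∈ ann A M, a ∈ P1) ∧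
      (∀ a ∈ ann A M, a ∈ P2) ∧ 1 - g ∈ P1 ∧ 1 - g ∈ P2 ∧
      ¬ Nonempty ((A ⧸ P1) ≃ₗ[A] (A ⧸ P2)) := by
  classical
  obtain ⟨e, he0, hidem, hne, h1, h1', h2⟩ := exists_tree hA hM m g hg hgm
  have hP : ∀ b, ∃ P : Ideal A, P.IsMaximal ∧ (∀ a ∈ ann A M, a ∈ P) ∧ ∀ n, 1 - e b n ∈ P :=
    fun b => exists_maximal m (e b) (hidem b) (hne b) (h1 b)
  choose P hPmax hPann hPe using hP
  by_contra hcon
  push Not at hcon
  set b0 : ℕ → Bool := fun _ => true with hb0
  have hiso : ∀ b, Nonempty ((A ⧸ P b) ≃ₗ[A] (A ⧸ P b0)) := by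
    intro b
    have hb1 : 1 - g ∈ P b := by have := hPe b 0; rwa [he0] at this
    have hb2 : 1 - g ∈ P b0 := by have := hPe b0 0; rwa [he0] at this
    exact hcon (P b) (P b0) (hPmax b) (hPmax b0) (hPann b) (hPann b0) hb1 hb2
  have iso : ∀ b, (A ⧸ P b) ≃ₗ[A] (A ⧸ P b0) := fun b => Classical.choice (hiso b)
  have : IsSimpleModule A (A ⧸ P b0) := isSimpleModule_iff_isCoatom.2 (Ideal.isMaximal_def.1 (hPmax b0))
  set v : (ℕ → Bool) → (A ⧸ P b0) := fun b => iso b (Submodule.Quotient.mk 1) with hv
  have hv0 : ∀ b, v b ≠ 0 := by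
    intro b h
    have h3 : (Submodule.Quotient.mk 1 : A ⧸ P b) = 0 := by
      have := (iso b).map_eq_zero_iff.1 h
      exact this
    rw [Submodule.Quotient.mk_eq_zero] at h3
    exact (hPmax b).ne_top ((Ideal.eq_top_iff_one _).2 h3)
  have hvfix : ∀ b n, e b n • v b = v b := by
    intro b n
    simp only [hv]
    rw [← map_smul]
    congr 1
    have h3 : (Submodule.Quotient.mk (e b n) : A ⧸ P b) = Submodule.Quotient.mk 1 := by
      rw [Submodule.Quotient.eq]
      have := hPe b n
      have h4 : e b n - 1 = -(1 - e b n) := by abel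
      rw [h4]; exact neg_mem this
    calc e b n • (Submodule.Quotient.mk 1 : A ⧸ P b) = Submodule.Quotient.mk (e b n • 1) := rfl
      _ = Submodule.Quotient.mk (e b n) := by rw [smul_eq_mul, mul_one]
      _ = _ := h3
  have hind := independent e h2 v hv0 hvfix
  let _ : DivisionRing (Module.End A (A ⧸ P b0)) := Module.End.instDivisionRing
  obtain ⟨T, hT, hspan⟩ := hH (P b0) (hPmax b0)
  have h3 := hind.cardinal_lift_le_rank
  have h4 : Module.rank (Module.End A (A ⧸ P b0)) (A ⧸ P b0) ≤ #T := by
    rw [← rank_top, ← hspan]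
    exact rank_span_le T
  have h5 : #(ℕ → Bool) = 𝔠 := by simp
  have h6 : Cardinal.lift.{u} #(ℕ → Bool) = (𝔠 : Cardinal.{u}) := by rw [h5]; simp
  have h7 : Cardinal.lift.{0} (Module.rank (Module.End A (A ⧸ P b0)) (A ⧸ P b0)) =
    Module.rank (Module.End A (A ⧸ P b0)) (A ⧸ P b0) := by simp
  rw [h6, h7] at h3
  exact absurd (lt_of_le_of_lt (h3.trans h4) hT) (lt_irrefl _)

end Pool.Agent.H76.Zg
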